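import Pool.Agent.U738.KV.CParts

/-!
# The sign conjecture and the class in the Grothendieck group of varieties

Let `𝒱` be a class of smooth proper varieties over the field `k` closed under products and `W` a Weil
cohomology theory on it with coefficients in a field `K`. Algebraic maps `H(X) → H(Y)` are the `K`-linear
combinations of the maps given by algebraic cycles of codimension `dim X` on `X × Y`. For fixed `V` and a
fixed set `S` of degrees the following spaces are additive functors of the Chow motive of `Z`: the
restrictions to `⊕_{j ∈ S} H^j(V)` of the algebraic maps `H(V) → H(Z)`, and the algebraic maps
`H(V) → H(Z)` which vanish on `H^j(V)` for `j ∉ S`. So their dimensions extend to additive invariants of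
all schemes over `k` (Gillet-Soulé, Guillén-Navarro Aznar, Bondarko), which vanish on the schemes of
dimension `m` if `2 m < i` for all `i ∈ S`. This is the hypothesis `IsMotivicS W`. Nothing else is assumed
about `W` (no Lefschetz theorem, no purity, homological and numerical equivalence may be different).

Then:

1. `C⁺(X)` (the projector onto the even cohomology is induced by a cycle with RATIONAL coefficients) holds
   if and only if the class `[X]` in the Grothendieck group `K₀(Var_k)` lies in the subgroup generated by
   the classes `[Y]` of the varieties with `C⁺(Y)`. So `C⁺(X)` depends only on the class of `X`, and the
   varieties with `C⁺` form a subgroup in this sense.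
2. If `X` and `X'` are isomorphic outside closed subsets `Z`, `Z'` whose classes lie in this subgroup, then
   `C⁺(X)` and `C⁺(X')` are equivalent. This applies to all closed subsets of dimension at most `2`, by
   resolution of singularities for surfaces; for example to birational threefolds in every
   characteristic (where no factorization into blow-ups is known), and to flops and flips of fourfolds.
3. If the classes of the schemes of dimension at most `2` are generated by varieties with the sign
   conjecture (known) and `X` is built (by products, isomorphisms, and two out of three for a closed
   subscheme and its open complement) from schemes of dimension at most `2`, varieties with `C⁺`, affine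
   schemes of any dimension given by polynomials with at most two terms over `k`-algebras of dimension at
   most `2`, and affine schemes with a grading of complexity at most `2`, then `C⁺(X)` holds.

Proof of 1. For a variety `V` compare the two ranks for `S` the set of even degrees. The second is at most
the first, with equality for all `V` if `C⁺(Z)` holds, and equality for `V = Z` implies that the projector of
`H(Z)` is a combination of algebraic cycles with coefficients in `K`; the descent to rational coefficients
uses that the supertraces of algebraic cycles are rational.
-/

set_option autoImplicit false

open CategoryTheory AlgebraicGeometry Pool.Agent.Y116.UV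

universe v

namespace Pool.Agent.Results.MP_56c18a_ag.ClassesSign

open Pool.Agent.H914 Pool.Agent.H914.VarClass Pool.Agent.H914.VarClass.Obj
  Pool.Agent.H914.WeilCohomology Pool.Agent.H447 Pool.Agent.U738.KV

/-- **The sign conjecture and the class in `K₀(Var_k)`.** -/
theorem result {k : Type} [Field k] {𝒱 : VarClass k} {ops : CycleOps 𝒱}
    (W : WeilCohomology.{0, v} ops) (hW : IsMotivicS W) (T : Set (Sch k))
    (hT : T = {c | ∃ Y : 𝒱.Obj, SignStd W Y ∧ c = sch Y}) :
    (∀ X : 𝒱.Obj, SignStd W X ↔ ClassIn T (sch X)) ∧
    -- varieties which are isomorphic outside closed subsets
    (∀ (X X' : 𝒱.Obj) (Z Z' U U' : Sch k) (i : Z ⟶ sch X) (j : U ⟶ sch X) (i' : Z' ⟶ sch X')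
        (j' : U' ⟶ sch X'), IsTriple i j → IsTriple i' j' → Nonempty (U ≅ U') →
      ClassIn T Z → ClassIn T Z' → (SignStd W X ↔ SignStd W X')) ∧
    -- varieties which are built from pieces
    ((∀ Z : Sch k, FT True Z → topologicalKrullDim Z.left ≤ 2 → ClassIn T Z) →
      ∀ X : 𝒱.Obj, Built T (sch X) → SignStd W X) := by
  subst hT
  exact ⟨partS_class hW, partS_open hW, partS_built hW⟩

end Pool.Agent.Results.MP_56c18a_ag.ClassesSign
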