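import Pool.Agent.U190.AP.KuBridge

/-!
# The sign conjecture for varieties whose odd (or even) cohomology is generated by products of
varieties with irreducible cohomology

Let `k` be a field of any characteristic and `W` a Weil cohomology theory with any coefficient field
`K` of characteristic zero (de Rham, crystalline, ...), on a class of smooth proper varieties over `k`
closed under products, and `𝒢` a set of symmetries of `W`: automorphisms of all the graded algebras
`H(X)`, compatible with the projections of products and with the spaces of algebraic classes, which
multiply the orientations by constants.

Let `P` be a set of varieties, each of which is of one of the following types.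

* Graded type: `H(X)` is the sum of a space `A₀` spanned by algebraic classes and of its orthogonal
  complement `Q`; either `Q` is contained in the middle degree, or the Künneth projectors of `X` are
  combinations of algebraic correspondences; and for each degree `i` some correspondence `θ` (the
  identity for `i = dim X`, a power of a divisor class for `i < dim X`) defines a non-degenerate form
  `tr (x θ(y))` on `Q ∩ H^i(X)` which is good.
* Abelian type: the cohomology is that of an abelian variety with an addition and a divisor `D`,
  generated by `H^1`, with hard Lefschetz for `D`, and `H^1` is good for the form
  `tr (x D ^ (dim X - 1) y)`.

A form on a space `P` (a part of the cohomology of `X`) is called good if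

* `P` has no non-zero subspace which is stable under `𝒢` and the algebraic correspondences of degree
  zero and pairs trivially with its images under all correspondences (for example `P` is
  irreducible); or
* `P` is spanned by vanishing cycles: any two are conjugate up to sign under `𝒢`, and for each of
  them some element of `𝒢` acts on `P` by the formula of Picard and Lefschetz; or
* some `σ` in `𝒢`, a similitude with multiplier `q`, acts semisimply on `P`, and each eigenvalue `α` is
  conjugate over `K` to `q / α`; and the eigenvalues are simple, or all operators on `P` which commute
  with `σ` are combinations of algebraic correspondences (for the Frobenius endomorphism and `H^1` of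
  an abelian variety this is the theorem of Tate).

Examples for the members of `P`. (1) The geometric generic fibre of a Lefschetz pencil of hypersurface
sections of a variety with algebraic cohomology (projective spaces, Grassmannians, quadrics), over any
algebraically closed field of characteristic different from two: the vanishing cycles are conjugate and
the formula of Picard and Lefschetz holds (Deligne), for the Galois group of the function field of the
line. So `X` may be the generic hypersurface of any degree and dimension. (2) Over a finite field with
`q` elements: all abelian varieties (Tate), K3 surfaces (the theorem of Ito, Ito and Koshikawa for the
square), and all surfaces with simple Frobenius eigenvalues on `H^1` and on the transcendental part of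
`H^2`. The condition on the eigenvalues is that `α` and `q ^ i / α`, the complex conjugate of `α`, are
conjugate over `ℚ_ℓ`; for finitely many varieties it holds for a set of primes `ℓ` of positive density,
as in the theorem of Clozel for abelian varieties.

Let `𝒴` be any set of varieties for the products of which homological and numerical equivalence
coincide, for instance the empty set.

**Theorem.** The following are equivalent.

1. The sign conjecture holds for the members of `𝒴`.
2. The sign conjecture holds, with rational coefficients, for EVERY variety `V` such that one of the
   two halves `H^odd(V)` and `H^even(V)` is spanned by the images of algebraic correspondences from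
   products, with repetitions, of members of `P` and `𝒴`; if some divisor on `V` has the hard Lefschetz
   property it suffices that the `H^i(V)` with `i ≤ dim V` and `i` odd (or: `i` even) are so spanned.

So for `𝒴` empty the sign conjecture holds for all these `V`, and nothing is assumed on the other half
of the cohomology of `V`. For example let `V ⊆ X` be a smooth complete intersection of ample
divisors in a variety `X` whose cohomology is generated as above (for instance a product of members of
`P`, or a variety dominated by one): only the cohomology of `X` in the degrees `i < dim V` of the
parity opposite to `dim V` is used; the middle cohomology of `V` is arbitrary. Or let `V` be a variety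
such that the odd cohomology comes from curves and generic hypersurfaces (for threefolds: `H^3(V)`) and
`H^2(V)`, `H^4(V)` are arbitrary.

## Proof

Conjecture D holds for all products of members of `P` and `𝒴` (`U190/AN/Main`, from the library
`R908`), and they satisfy the sign conjecture, as do products of varieties which satisfy it. Let `π` be
the projector onto the odd (even) cohomology of `V`. The operators of degree zero on `H(V)` which
factor through products `Z` of members of `P` and `𝒴` form a two-sided ideal `I` in the algebra of the
`K`-combinations of algebraic correspondences. If a combination `u` of correspondences has
`tr(π x u) = 0` for all `x` in `I` then `u` vanishes on the odd cohomology: for generators `φ(a)`,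
`φ'(a')` with `φ : H(Z) → H(V)`, `φ' : H(Z') → H(V)` the number `tr(φ'(a') · u(φ(a)))` is given by the
correspondence `ᵗφ' u φ π_Z` from `Z` to `Z'`, which is numerically equivalent to zero, hence zero by
conjecture D for `Z × Z'`. By linear algebra some `x` in `I` is the identity on the odd cohomology
(`exists_fac_par`), and `π = x π` is a combination of correspondences, as `φ ψ π_V = φ π_Z ψ`
(`pp_mem`). A central idempotent with rational traces against all correspondences (here: the super
trace) is rational: the descent of `TH133/PW/Ev`.
-/

set_option autoImplicit false

universe u v

namespace Pool.Agent.Results.MP_56c18a_ag.GeneratedParity

open Pool.Agent.H914 Pool.Agent.H447 Pool.Agent.U190.AP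

/-- **The sign conjecture for varieties with generated odd or even cohomology.** -/
theorem result {k : Type u} [Field k] {𝒱 : VarClass k} {ops : CycleOps 𝒱}
    (W : WeilCohomology.{u, v} ops) (𝒢 : Set (Symmetry W)) (P 𝒴 : Set 𝒱.Obj)
    (hP : ∀ X ∈ P, IsBasic 𝒢 X) (h𝒴 : ∀ Y, IsProductOf 𝒴 Y → HomEqNum W Y) :
    (∀ Y ∈ 𝒴, SignStd W Y) ↔
      ∀ V, (∃ s < 2, (∀ i, i % 2 = s → Generated W P 𝒴 V i) ∨
        ∃ L, V.IsCyc 1 L ∧ HardLefschetz W V L ∧
          ∀ i ≤ V.dim, i % 2 = s → Generated W P 𝒴 V i) → SignStd W V := by
  constructor
  · rintro hC V ⟨s, hs, h | ⟨L, hL, hHL, h⟩⟩
    · exact signStd_of_generated hP h𝒴 hC hs (fun i hi => Or.inl (h i hi))
    · refine signStd_of_generated hP h𝒴 hC hs (fun i hi => ?_)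
      by_cases hle : i ≤ V.dim
      · exact Or.inl (h i hle hi)
      · exact Or.inr ⟨L, hL, hHL, by omega, fun h2 => h _ (by omega) (by omega)⟩
  · intro h Y hY
    exact h Y ⟨0, by norm_num, Or.inl (fun i _ => generated_of_mem hY i)⟩

end Pool.Agent.Results.MP_56c18a_ag.GeneratedParity
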