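import Pool.Agent.U483.KS.Gen
import Pool.Agent.U483.KS.Kun

/-!
# The sign conjecture and the Grothendieck ring of varieties

`𝓜` is the category of the motives over the field `k` modulo homological equivalence for a Weil cohomology theory
with coefficients in the field `E` (de Rham cohomology, `E = k`), where the correspondences have rational coefficients; `k` has characteristic zero, so that the spaces of morphisms have finite dimension over `ℚ`.
The structures `PureMotives` and `Kunneth` list the known properties which are used; the main one is the theorem of
Gillet and Soulé (Guillén and Navarro Aznar, Bittner, Bondarko): additive functions of motives extend to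
the Grothendieck group `K_0(Var_k)` of all varieties.

* For a smooth projective `X` and `n ≠ 0` the even Künneth projector of `X` is algebraic if and only if
  `n [X]` is in the subgroup of `K_0(Var_k)` generated by the classes of the smooth projective varieties with
  algebraic even Künneth projector. If `n [X] = n [X']` then `C⁺(X)` holds if and only if `C⁺(X')` holds.
* Let `n [X]` be in the subring generated by the classes of all (open, singular) varieties of
  dimension at most `D` and of all smooth projective varieties with `C⁺`. If resolution of singularities and `C⁺`
  are known in dimension at most `D` (for instance `D = 2`) then `C⁺(X)` holds, in arbitrary dimension.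

The category `𝓜` is not semisimple. The proof uses the additive function
`A ↦ dim Hom(A, h(X)) - dim {morphisms which factor through good motives}`.
-/

set_option autoImplicit false

open CategoryTheory CategoryTheory.Limits AlgebraicGeometry Pool.Agent.Y116.UV
  Pool.Agent.U483.KM Pool.Agent.U483.GU Pool.Agent.U483.KS

namespace Pool.Agent.Results.MP_56c18a_ag.GrothendieckRing

universe w x

theorem result (k E : Type) [Field k] [Field E] (𝓜 : Type w) [Category.{x} 𝓜]
    [Preadditive 𝓜] [Linear ℚ 𝓜] [HasBinaryBiproducts 𝓜] [HasZeroObject 𝓜]
    (H : PureMotives.{w, x} k ℚ 𝓜) (V : ℤ → 𝓜 ⥤ ModuleCat.{0} E) [∀ i, (V i).Additive]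
    (Kn : Kunneth H V) :
    -- the conjecture for `X` in terms of a multiple of the class of `X` in `K_0(Var_k)`
    Criterion (fun X : Sch k => SignC V (H.h X)) ∧
    Invariance (fun X : Sch k => SignC V (H.h X)) ∧
    -- the subring generated by the schemes of dimension at most `D` (known for `D = 2`) and the good ones
    Generation (fun X : Sch k => SignC V (H.h X)) :=
  main H (thick_sign V) HasZeroObject.zero fun z h1 h2 h3 h4 =>
    ⟨Kn.smooth z h1 h2, sign_prod Kn z h1 h2 h3 h4⟩

end Pool.Agent.Results.MP_56c18a_ag.GrothendieckRing
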