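import Pool.Agent.U672.SF.Main

/-!
# The sign conjecture for schemes built from systems of equations with few terms, in all dimensions

`k` is a perfect field and `D` the triangulated category of geometric motives over `k` with rational
coefficients, in the form of its standard properties (`MotiveFacts`); `S` is the realization given by a
Weil cohomology theory, for instance de Rham cohomology in characteristic zero and crystalline
cohomology in positive characteristic. `CPlus S (D.M X)` is Grothendieck's sign conjecture `C⁺(X)`
for the smooth proper scheme `X`.

The *excess* of a system of polynomials is the sum of (number of terms - 2) over its members with at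
least three terms.

**Theorem.** Let `N ≥ 1` be such that `C⁺` is true for the smooth proper schemes of dimension at
most `N`; this is known for `N = 2`. Then `C⁺(X)` is true for all smooth proper `X`, of any dimension, which
can be obtained from the following schemes by cutting and pasting, products of affine schemes and
quotients by finite free coverings (`Constructed`):
* the closed subschemes of affine spaces defined by a system `G` of excess at most `N + 1` and polynomials `H`
  with any numbers of terms whose exponents are independent modulo the differences of the exponents
  of `G`; for instance all hypersurfaces with at most `N + 3` terms, and all hypersurfaces with affinely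
  independent exponents, singular or not;
* the schemes `∑ f_j (x_j) = g (y)`, where the `f_j` are polynomials in separate variables, each of them
  quasi-homogeneous in at most `N + 1` variables or a trilinear form with a small block, and
  `g` is a function on an affine scheme of dimension at most `N`;
* all schemes of dimension at most `N`;
* all smooth proper schemes for which `C⁺` is true.
The same holds for the algebraicity of all Künneth projectors, and the motive of `X` is then a direct factor
of a sum of twists of products of motives of smooth proper schemes which are of dimension at most `N` or
among the given ones.

The intermediate schemes are neither smooth nor proper and the conjecture makes no sense for them. What is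
inherited is the property that the motive with compact support is in the thick tensor subcategory
generated by the given motives.
-/

set_option autoImplicit false

open CategoryTheory MonoidalCategory AlgebraicGeometry Pool.Agent.TH137.DG Pool.Agent.Y116.UV
  Pool.Agent.Z125.UN Pool.Agent.U672.SF

namespace Pool.Agent.Results.MP_56c18a_ag.SystemsOfFewTerms

universe v u w

/-- **Theorem.** (1) If `X` is smooth and proper and is constructed from systems of equations of
excess at most `N + 1`, schemes of dimension at most `N` and smooth proper schemes in the class `Y` then the
motive of `X` is a direct factor of a sum of twists of products of motives of schemes in `Y`. (2) If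
the sign conjecture is true in dimension at most `N`, then it is true for all smooth proper schemes which
are constructed from systems of excess at most `N + 1`, schemes of dimension at most `N` and smooth
proper schemes for which it is true. (3) The same for the algebraicity of all Künneth projectors. -/
theorem result {k : Type} [Field k] {C : Type u} [Category.{v} C] [MonoidalCategory C]
    [SymmetricCategory C] [Preadditive C] [Linear ℚ C] [Limits.HasZeroObject C] [HasShift C ℤ]
    [∀ n : ℤ, (shiftFunctor C n).Additive] [Pretriangulated C] {D : Motives k C}
    (hD : MotiveFacts D) {F : Type} [Field F] [CharZero F] (S : Realization.{v, u, w} D F) (N : ℕ)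
    (hN : 1 ≤ N) :
    (∀ Y : Sch k → Prop, (∀ X, Y X → SmoothProper X) →
      (∀ X, SmoothProper X → topologicalKrullDim X.left ≤ N → Y X) →
      ∀ X, SmoothProper X → Constructed N Y X → Pure D Y (D.M X)) ∧
    ((∀ X, SmoothProper X → topologicalKrullDim X.left ≤ N → CPlus S (D.M X)) →
      ∀ X, SmoothProper X → Constructed N (fun Y => SmoothProper Y ∧ CPlus S (D.M Y)) X →
        CPlus S (D.M X)) ∧
    ((∀ X, SmoothProper X → topologicalKrullDim X.left ≤ N → AllProjectors S (D.M X)) →
      ∀ X, SmoothProper X → Constructed N (fun Y => SmoothProper Y ∧ AllProjectors S (D.M Y)) X →
        AllProjectors S (D.M X)) := by
  refine ⟨fun Y hY hs X hp hX => constructed_pure hD hN hY hs X hX hp, fun h X hp hX => ?_,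
    fun h X hp hX => ?_⟩
  · exact pure_cplus hD (fun X hX => hX.2)
      (constructed_pure hD hN (fun X hX => hX.1) (fun X h1 h2 => ⟨h1, h X h1 h2⟩) X hX hp)
  · exact pure_all hD (fun X hX => hX.2)
      (constructed_pure hD hN (fun X hX => hX.1) (fun X h1 h2 => ⟨h1, h X h1 h2⟩) X hX hp)

end Pool.Agent.Results.MP_56c18a_ag.SystemsOfFewTerms
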